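import Mathlib
import Pool.Agent.H.MP_a7495c_an.A

set_option autoImplicit false

open MeasureTheory Filter Set Metric Module
open scoped Topology ENNReal NNReal

namespace Pool.Agent.Results.MP_a7495c_an.Discrete

abbrev E (d : ℕ) : Type := EuclideanSpace ℝ (Fin d)

open Classical in
noncomputable def pf {d : ℕ} (α : ℝ) (n : ℕ) (x : ℕ → E d) (y : E d) : ℝ :=
  if ∃ j ∈ Finset.Icc 2 n, y = x j then 0
  else Real.exp (-∑ j ∈ Finset.Icc 2 n, dist y (x j) ^ (-α))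

def PosCap {d : ℕ} (α : ℝ) (K : Set (E d)) : Prop :=
  ∃ ν : Measure (E d), IsProbabilityMeasure ν ∧ ν Kᶜ = 0 ∧
    ∫⁻ x, ∫⁻ y, edist x y ^ (-α) ∂ν ∂ν < ⊤

def BM {d : ℕ} (α : ℝ) (K : Set (E d)) (μ : Measure (E d)) : Prop :=
  IsFiniteMeasure μ ∧ μ Kᶜ = 0 ∧ ∃ M : ℕ → ℝ, (∀ n, 0 < M n) ∧
    Tendsto (fun n : ℕ => M n ^ ((1 : ℝ) / n)) atTop (𝓝 1) ∧
    ∀ n, 2 ≤ n → ∀ x : ℕ → E d, (∀ j ∈ Finset.Icc 2 n, x j ∈ K) →
      ∀ y ∈ K, pf α n x y ≤ M n * ∫ z in K, pf α n x z ∂μ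

lemma pf_nonneg {d : ℕ} (α : ℝ) (n : ℕ) (x : ℕ → E d) (y : E d) : 0 ≤ pf α n x y := by
  unfold pf; split_ifs; exacts [le_rfl, (Real.exp_pos _).le]

lemma pf_le {d : ℕ} (α : ℝ) (n : ℕ) (x : ℕ → E d) (y : E d) : pf α n x y ≤ 1 := by
  unfold pf; split_ifs
  · exact zero_le_one
  · exact Real.exp_le_one_iff.2 (neg_nonpos.2 (by positivity))

lemma pf_meas {d : ℕ} (α : ℝ) (n : ℕ) (x : ℕ → E d) : Measurable (pf α n x) := by
  refine Measurable.ite ?_ measurable_const (by fun_prop)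
  refine (((Finset.Icc 2 n).finite_toSet.image x).subset ?_).measurableSet
  rintro y ⟨j, hj, h⟩
  exact ⟨j, hj, h.symm⟩

lemma pf_of {d : ℕ} (α : ℝ) (n : ℕ) (x : ℕ → E d) {y : E d} (h : ∀ j ∈ Finset.Icc 2 n, y ≠ x j) :
    pf α n x y = Real.exp (-∑ j ∈ Finset.Icc 2 n, dist y (x j) ^ (-α)) :=
  if_neg fun ⟨j, hj, e⟩ => h j hj e

open H.MP_a7495c_an in
theorem result (d : ℕ) (α : ℝ) (hα : 0 < α) (K : Set (E d)) (hK : IsCompact K)
    (hc : PosCap α K) :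
    ∃ (ι : Type) (_ : Countable ι) (z : ι → E d) (c : ι → ℝ≥0), (∀ k, z k ∈ K ∧ 0 < c k) ∧
      BM α K (Measure.sum fun k => c k • Measure.dirac (z k)) := by
  obtain ⟨ν, hν, hνK, hI⟩ := hc
  obtain ⟨I, hI1, hI2⟩ : ∃ I : ℝ, 1 ≤ I ∧ ∫⁻ x, ∫⁻ y, edist x y ^ (-α) ∂ν ∂ν ≤ ENNReal.ofReal I :=
    ⟨(∫⁻ x, ∫⁻ y, edist x y ^ (-α) ∂ν ∂ν).toReal + 1, by simp,
      (ENNReal.ofReal_toReal hI.ne).ge.trans (ENNReal.ofReal_le_ofReal (by simp))⟩
  obtain ⟨R, hR0, hR⟩ := hK.isBounded.exists_pos_norm_le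
  obtain ⟨S, hS⟩ : ∃ S : ℕ → ℝ, S = fun n : ℕ => 2 ^ α * I * ((n : ℝ) + 1) ^ 3 := ⟨_, rfl⟩
  have hS1 : ∀ n, 1 ≤ S n := fun n => by
    rw [hS]
    exact one_le_mul_of_one_le_of_one_le
      (one_le_mul_of_one_le_of_one_le (Real.one_le_rpow one_le_two hα.le) hI1)
      (one_le_pow₀ (by simp))
  have sS : Sub S := hS ▸ (Sub.const (by positivity)).mul (Sub.succ.pow 3)
  obtain ⟨r, hr⟩ : ∃ r : ℕ → ℝ, r = fun n => 2⁻¹ * (S n ^ (-α⁻¹) * ((4 * α + 2) * S n)⁻¹) :=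
    ⟨_, rfl⟩
  have sr : Sub r := hr ▸ (Sub.const (by positivity)).mul
    ((sS.rpow _).mul ((Sub.const (by positivity)).mul sS).inv)
  have hr1 : ∀ n, r n ≤ 1 := fun n => by
    rw [hr]
    have h1 : S n ^ (-α⁻¹) ≤ 1 :=
      Real.rpow_le_one_of_one_le_of_nonpos (hS1 n) (neg_nonpos.2 (by positivity))
    have h2 : ((4 * α + 2) * S n)⁻¹ ≤ 1 :=
      inv_le_one_of_one_le₀ (one_le_mul_of_one_le_of_one_le (by linarith) (hS1 n))
    have := mul_le_one₀ h1 (inv_nonneg.2 (by have := hS1 n; positivity)) h2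
    beta_reduce
    linarith
  choose F hF1 hF2 hF3 using fun n => net hR0.le (sr.1 n) hR
  obtain ⟨N, hN⟩ : ∃ N : ℕ → ℝ, N = fun n => ((R + 1) * (r n)⁻¹) ^ finrank ℝ (E d) := ⟨_, rfl⟩
  have sN : Sub N := hN ▸ ((Sub.const (by positivity)).mul sr.inv).pow _
  have hFN : ∀ n, ((F n).card : ℝ) ≤ N n := fun n => by
    refine (hF2 n).trans ?_
    rw [hN, div_eq_mul_inv]
    have := sr.1 n
    beta_reduce
    gcongr
    exact hr1 n
  obtain ⟨w, hw⟩ : ∃ w : ℕ → ℝ, w = fun n : ℕ => (((n : ℝ) + 1) ^ 2 * N n)⁻¹ := ⟨_, rfl⟩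
  have sw : Sub w := hw ▸ ((Sub.succ.pow 2).mul sN).inv
  obtain ⟨μ, hμ⟩ : ∃ μ : Measure (E d), μ = Measure.sum fun k : (Σ n, F n) =>
    (w k.1).toNNReal • Measure.dirac (k.2 : E d) := ⟨_, rfl⟩
  have hfin : IsFiniteMeasure μ := by
    refine ⟨?_⟩
    have hs : Summable fun n : ℕ => (((n : ℝ) + 1) ^ 2)⁻¹ := by
      exact_mod_cast (summable_nat_add_iff 1).2 (Real.summable_nat_pow_inv.2 one_lt_two)
    rw [hμ, Measure.sum_apply _ MeasurableSet.univ, ENNReal.tsum_sigma']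
    refine lt_of_le_of_lt (ENNReal.tsum_le_tsum fun n => ?_) hs.tsum_ofReal_lt_top
    simp only [Measure.smul_apply, measure_univ, tsum_fintype, Finset.sum_const, Finset.card_univ,
      Fintype.card_coe, nsmul_eq_mul, ENNReal.smul_def, smul_eq_mul, mul_one]
    change _ * ENNReal.ofReal _ ≤ _
    rw [← ENNReal.ofReal_natCast, ← ENNReal.ofReal_mul (by positivity)]
    refine ENNReal.ofReal_le_ofReal ?_
    have := sN.1 n
    calc _ ≤ N n * w n := mul_le_mul_of_nonneg_right (hFN n) (sw.1 n).le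
      _ = _ := by rw [hw]; field_simp
  have hμK : μ Kᶜ = 0 := by
    rw [hμ, Measure.sum_apply _ hK.measurableSet.compl]
    refine ENNReal.tsum_eq_zero.2 fun k => ?_
    simp [Measure.dirac_apply, hF1 _ _ k.2.2]
  refine ⟨Σ n, F n, inferInstance, fun k => k.2, fun k => (w k.1).toNNReal,
    fun k => ⟨hF1 _ _ k.2.2, Real.toNNReal_pos.2 (sw.1 _)⟩, hμ ▸ ⟨hfin, hμK,
      fun n => Real.exp 1 * (w n)⁻¹, ((Sub.const (Real.exp_pos 1)).mul sw.inv).1,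
      ((Sub.const (Real.exp_pos 1)).mul sw.inv).lim, fun n hn x _ y hy => ?_⟩⟩
  rw [Measure.restrict_eq_self_of_ae_mem hμK]
  have hint : Integrable (pf α n x) μ :=
    (integrable_const (1 : ℝ)).mono' (pf_meas α n x).aestronglyMeasurable
      (ae_of_all _ fun y => by rw [Real.norm_of_nonneg (pf_nonneg ..)]; exact pf_le ..)
  have key : ∀ y ∈ K, (∀ j ∈ Finset.Icc 2 n, y ≠ x j) →
      ∑ j ∈ Finset.Icc 2 n, dist y (x j) ^ (-α) ≤ S n →
      pf α n x y ≤ Real.exp 1 * (w n)⁻¹ * ∫ z, pf α n x z ∂μ := fun y hy h1 h2 => by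
    obtain ⟨z, hz, hzy⟩ := hF3 n y hy
    obtain ⟨h3, h4⟩ := near hα (hS1 n) _ x h1 h2 (z := z) (by rw [hr] at hzy; linarith)
    have h5 : w n * pf α n x z ≤ ∫ z, pf α n x z ∂μ := by
      have := integral_mono_measure (hμ ▸ Measure.le_sum _ (⟨n, z, hz⟩ : Σ n, F n) :
        (w n).toNNReal • Measure.dirac z ≤ μ) (ae_of_all _ (pf_nonneg α n x)) hint
      rwa [integral_smul_nnreal_measure, integral_dirac, NNReal.smul_def,
        Real.coe_toNNReal _ (sw.1 n).le, smul_eq_mul] at this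
    have h6 : pf α n x y ≤ Real.exp 1 * pf α n x z := by
      rw [pf_of α n x h1, pf_of α n x h3, ← Real.exp_add]
      exact Real.exp_le_exp.2 (by linarith)
    have := sw.1 n
    calc _ ≤ Real.exp 1 * (w n)⁻¹ * (w n * pf α n x z) := h6.trans_eq (by field_simp)
      _ ≤ _ := by gcongr
  obtain ⟨y0, hy0, h1, h2⟩ := far hα (by linarith) ν hνK hI2 n (Finset.Icc 2 n) (by simp) x
  replace h2 : ∑ j ∈ Finset.Icc 2 n, dist y0 (x j) ^ (-α) ≤ S n := by rw [hS]; exact h2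
  by_cases h3 : ∀ j ∈ Finset.Icc 2 n, y ≠ x j
  · by_cases h4 : ∑ j ∈ Finset.Icc 2 n, dist y (x j) ^ (-α) ≤ S n
    · exact key y hy h3 h4
    · refine le_trans ?_ (key y0 hy0 h1 h2)
      rw [pf_of α n x h1, pf_of α n x h3]
      exact Real.exp_le_exp.2 (by linarith)
  · refine le_trans ?_ ((pf_nonneg ..).trans (key y0 hy0 h1 h2))
    push Not at h3
    exact (if_pos h3).le

end Pool.Agent.Results.MP_a7495c_an.Discrete
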